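import Pool.Agent.Y211.PY.Stm

set_option autoImplicit false
set_option linter.unusedSectionVars false


/-!
Project Y211-PY, task INIT: the initial self-dual lattice.
-/

open scoped Matrix

universe u

namespace Pool.Agent.Y936.PY

open Pool.Agent.Y211.PY

section Basic

variable {R F : Type u} [CommRing R] [Field F] [Algebra R F]

/-- the predicate that a common denominator outside `D` makes `y` integral -/
def PD (R : Type u) {F : Type u} [CommRing R] [Field F] [Algebra R F] (D : Ideal R) (y : F) :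
    Prop := ∃ s : R, s ∉ D ∧ s • y ∈ (⊥ : Subalgebra R F)

theorem smul_bot (r : R) {x : F} (hx : x ∈ (⊥ : Subalgebra R F)) :
    r • x ∈ (⊥ : Subalgebra R F) := Subalgebra.smul_mem _ hx r

theorem pd_mul {D : Ideal R} [hD : D.IsPrime] {x y : F} (hx : PD R D x) (hy : PD R D y) :
    PD R D (x * y) := by
  obtain ⟨s, hs, hsx⟩ := hx
  obtain ⟨t, ht, hty⟩ := hy
  refine ⟨s * t, fun h => (hD.mem_or_mem h).elim hs ht, ?_⟩
  have : (s * t) • (x * y) = (s • x) * (t • y) := by
    rw [smul_mul_smul_comm]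
  rw [this]
  exact mul_mem hsx hty

theorem pd_zero {D : Ideal R} [hD : D.IsPrime] : PD R D (0 : F) :=
  ⟨1, fun h => hD.ne_top ((Ideal.eq_top_iff_one _).2 h), by simp [zero_mem]⟩

theorem pd_one {D : Ideal R} [hD : D.IsPrime] : PD R D (1 : F) :=
  ⟨1, fun h => hD.ne_top ((Ideal.eq_top_iff_one _).2 h), by simp [one_mem]⟩

theorem pd_common {D : Ideal R} [hD : D.IsPrime] {ι : Type*} (S : Finset ι) (f : ι → F)
    (h : ∀ i ∈ S, PD R D (f i)) :
    ∃ s : R, s ∉ D ∧ ∀ i ∈ S, s • f i ∈ (⊥ : Subalgebra R F) := by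
  classical
  induction S using Finset.induction_on with
  | empty => exact ⟨1, fun h => hD.ne_top ((Ideal.eq_top_iff_one _).2 h), by simp⟩
  | insert a S ha ih =>
    obtain ⟨s, hs, hsS⟩ := ih (fun i hi => h i (Finset.mem_insert_of_mem hi))
    obtain ⟨t, ht, hta⟩ := h a (Finset.mem_insert_self _ _)
    refine ⟨s * t, fun h => (hD.mem_or_mem h).elim hs ht, fun i hi => ?_⟩
    rcases Finset.mem_insert.1 hi with rfl | hi
    · rw [mul_smul]; exact smul_bot _ hta
    · rw [mul_comm, mul_smul]; exact smul_bot _ (hsS i hi)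

theorem pd_max {D : Ideal R} [hD : D.IsPrime] (hV : ∀ x : F, PD R D x ∨ PD R D x⁻¹)
    {ι : Type*} (S : Finset ι) (f : ι → F) (h : ∃ i ∈ S, f i ≠ 0) :
    ∃ i ∈ S, f i ≠ 0 ∧ ∀ j ∈ S, PD R D (f j / f i) := by
  classical
  induction S using Finset.induction_on with
  | empty => simp at h
  | insert a S ha ih =>
    by_cases hS : ∃ i ∈ S, f i ≠ 0
    · obtain ⟨i, hi, hi0, hij⟩ := ih hS
      rcases hV (f a / f i) with h1 | h1
      · refine ⟨i, Finset.mem_insert_of_mem hi, hi0, fun j hj => ?_⟩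
        rcases Finset.mem_insert.1 hj with rfl | hj
        · exact h1
        · exact hij j hj
      · rw [inv_div] at h1
        by_cases ha0 : f a = 0
        · refine ⟨i, Finset.mem_insert_of_mem hi, hi0, fun j hj => ?_⟩
          rcases Finset.mem_insert.1 hj with rfl | hj
          · rw [ha0, zero_div]; exact pd_zero
          · exact hij j hj
        · refine ⟨a, Finset.mem_insert_self _ _, ha0, fun j hj => ?_⟩
          rcases Finset.mem_insert.1 hj with rfl | hj
          · rw [div_self ha0]; exact pd_one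
          · have : f j / f a = (f j / f i) * (f i / f a) := by field_simp
            rw [this]
            exact pd_mul (hij j hj) h1
    · push Not at hS
      have ha0 : f a ≠ 0 := by
        obtain ⟨i, hi, hi0⟩ := h
        rcases Finset.mem_insert.1 hi with rfl | hi
        · exact hi0
        · exact absurd (hS i hi) hi0
      refine ⟨a, Finset.mem_insert_self _ _, ha0, fun j hj => ?_⟩
      rcases Finset.mem_insert.1 hj with rfl | hj
      · rw [div_self ha0]; exact pd_one
      · rw [hS j hj, zero_div]; exact pd_zero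

/-- the Hartogs principle in the form with local denominators at nonmaximal primes -/
theorem hartogs_plus [IsNoetherianRing R] (hH : Hart R F) (t : F)
    (h : ∀ D : Ideal R, D.IsPrime → ¬ D.IsMaximal → PD R D t) : t ∈ (⊥ : Subalgebra R F) := by
  by_contra ht
  let I : Ideal R :=
    { carrier := {r | r • t ∈ (⊥ : Subalgebra R F)}
      add_mem' := fun {a b} ha hb => by
        change (a + b) • t ∈ (⊥ : Subalgebra R F)
        rw [add_smul]; exact add_mem ha hb
      zero_mem' := by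
        change (0 : R) • t ∈ (⊥ : Subalgebra R F)
        rw [zero_smul]; exact zero_mem _
      smul_mem' := fun c x hx => by
        change (c * x) • t ∈ (⊥ : Subalgebra R F)
        rw [mul_smul]; exact smul_bot c hx }
  have hI : I ≠ ⊤ := by
    intro h1
    have : (1 : R) ∈ I := by rw [h1]; trivial
    have h2 : (1 : R) • t ∈ (⊥ : Subalgebra R F) := this
    rw [one_smul] at h2
    exact ht h2
  have hnt : Nontrivial (R ⧸ I) := Ideal.Quotient.nontrivial_iff.2 hI
  obtain ⟨p, hp⟩ := associatedPrimes.nonempty R (R ⧸ I)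
  rw [AssociatedPrimes.mem_iff, isAssociatedPrime_iff] at hp
  obtain ⟨hpp, w, hw⟩ := hp
  obtain ⟨w, rfl⟩ := Ideal.Quotient.mk_surjective w
  have hmem : ∀ r : R, r ∈ p ↔ r * w ∈ I := by
    intro r
    rw [hw, Submodule.mem_colon_singleton, Submodule.mem_bot]
    rw [← Ideal.Quotient.eq_zero_iff_mem, map_mul, Algebra.smul_def]
    rfl
  have hIp : I ≤ p := fun r hr => (hmem r).2 (I.mul_mem_right w hr)
  have hpm : p.IsMaximal := by
    by_contra hpm
    obtain ⟨s, hs, hst⟩ := h p hpp hpm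
    exact hs (hIp hst)
  have hw' : w • t ∈ (⊥ : Subalgebra R F) := by
    refine hH p hpm _ (fun r hr => ?_)
    rw [← mul_smul]
    exact (hmem r).1 hr
  have : (1 : R) ∈ p := by
    rw [hmem, one_mul]; exact hw'
  exact hpp.ne_top ((Ideal.eq_top_iff_one _).2 this)

end Basic

section Main

variable {R F : Type u} [CommRing R] [IsDomain R] [IsNoetherianRing R] [Field F] [Algebra R F]
  [IsFractionRing R F]

theorem mem_lat {n : ℕ} {x : Fin n → F} :
    x ∈ lat R F n ↔ ∀ i, x i ∈ (⊥ : Subalgebra R F) := Iff.rfl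

theorem mem_dual {n : ℕ} {M : Submodule R (Fin n → F)} {x : Fin n → F} :
    x ∈ dual M ↔ ∀ y ∈ M, x ⬝ᵥ y ∈ (⊥ : Subalgebra R F) := Iff.rfl

/-- `Lv = {x ∈ L | x · v ∈ R}` -/
def Lv {n : ℕ} (v : Fin n → F) : Submodule R (Fin n → F) where
  carrier := {x | x ∈ lat R F n ∧ x ⬝ᵥ v ∈ (⊥ : Subalgebra R F)}
  add_mem' := fun {a b} ha hb => ⟨add_mem ha.1 hb.1, by
    rw [add_dotProduct]; exact add_mem ha.2 hb.2⟩
  zero_mem' := ⟨zero_mem _, by rw [zero_dotProduct]; exact zero_mem _⟩
  smul_mem' := fun r x hx => ⟨Submodule.smul_mem _ r hx.1, by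
    rw [smul_dotProduct]; exact Subalgebra.smul_mem _ hx.2 r⟩

theorem lat_dot {n : ℕ} {x y : Fin n → F} (hx : x ∈ lat R F n) (hy : y ∈ lat R F n) :
    x ⬝ᵥ y ∈ (⊥ : Subalgebra R F) :=
  sum_mem fun i _ => mul_mem (hx i) (hy i)

/-- the lattice of the task -/
def MM {n : ℕ} (v : Fin n → F) : Submodule R (Fin n → F) where
  carrier := {x | x ∈ dual (Lv (R := R) v) ∧ x ⬝ᵥ v ∈ (⊥ : Subalgebra R F)}
  add_mem' := fun {a b} ha hb => ⟨add_mem ha.1 hb.1, by
    rw [add_dotProduct]; exact add_mem ha.2 hb.2⟩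
  zero_mem' := ⟨zero_mem _, by rw [zero_dotProduct]; exact zero_mem _⟩
  smul_mem' := fun r x hx => ⟨Submodule.smul_mem _ r hx.1, by
    rw [smul_dotProduct]; exact Subalgebra.smul_mem _ hx.2 r⟩

theorem mem_MM {n : ℕ} {v x : Fin n → F} :
    x ∈ MM (R := R) v ↔ x ∈ dual (Lv (R := R) v) ∧ x ⬝ᵥ v ∈ (⊥ : Subalgebra R F) := Iff.rfl

theorem mem_Lv {n : ℕ} {v x : Fin n → F} :
    x ∈ Lv (R := R) v ↔ x ∈ lat R F n ∧ x ⬝ᵥ v ∈ (⊥ : Subalgebra R F) := Iff.rfl

theorem Lv_le_MM {n : ℕ} (v : Fin n → F) : Lv (R := R) v ≤ MM v := fun _ hx =>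
  ⟨fun _ hy => lat_dot hx.1 hy.1, hx.2⟩

theorem v_mem_MM {n : ℕ} {v : Fin n → F} (hv : v ⬝ᵥ v ∈ (⊥ : Subalgebra R F)) :
    v ∈ MM (R := R) v :=
  ⟨fun y hy => by rw [dotProduct_comm]; exact hy.2, hv⟩

theorem dual_MM_le {n : ℕ} {v : Fin n → F} (hv : v ⬝ᵥ v ∈ (⊥ : Subalgebra R F)) :
    dual (MM (R := R) v) ≤ MM v := fun _ hx =>
  ⟨fun _ hy => hx _ (Lv_le_MM v hy), hx _ (v_mem_MM hv)⟩

theorem single_mem_lat {n : ℕ} (i : Fin n) {a : F} (ha : a ∈ (⊥ : Subalgebra R F)) :
    Pi.single i a ∈ lat R F n := by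
  intro j
  by_cases h : j = i
  · subst h; simpa using ha
  · rw [Pi.single_eq_of_ne h]; exact zero_mem _

/-- F1 -/
theorem F1 (hV : Val R F) {n : ℕ} (v : Fin n → F) (D : Ideal R) [hD : D.IsPrime]
    (hDm : ¬ D.IsMaximal) {x : Fin n → F} (hx : x ∈ dual (Lv (R := R) v)) :
    ∃ u : R, u ∉ D ∧ ∃ c : R, u • x - c • v ∈ lat R F n := by
  classical
  have hVD : ∀ x : F, PD R D x ∨ PD R D x⁻¹ := by
    intro x
    obtain ⟨s, hs, h | h⟩ := hV D hD hDm x
    · exact Or.inl ⟨s, hs, h⟩
    · exact Or.inr ⟨s, hs, h⟩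
  by_cases hall : ∀ j, PD R D (v j)
  · obtain ⟨u, hu, huv⟩ := pd_common Finset.univ v (fun j _ => hall j)
    refine ⟨u, hu, 0, ?_⟩
    rw [zero_smul, sub_zero]
    intro j
    have hy : (Pi.single j (algebraMap R F u) : Fin n → F) ∈ Lv (R := R) v := by
      refine ⟨single_mem_lat j (Subalgebra.algebraMap_mem _ u), ?_⟩
      rw [single_dotProduct]
      rw [← Algebra.smul_def]
      exact huv j (Finset.mem_univ _)
    have := hx _ hy
    rw [dotProduct_single, mul_comm, ← Algebra.smul_def] at this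
    exact this
  · have hne : ∃ i ∈ (Finset.univ : Finset (Fin n)), v i ≠ 0 := by
      by_contra hcon
      push Not at hcon
      refine hall (fun j => ?_)
      rw [hcon j (Finset.mem_univ _)]
      exact pd_zero
    obtain ⟨i, -, hi0, hij⟩ := pd_max hVD Finset.univ v hne
    have hinv : PD R D (v i)⁻¹ := by
      rcases hVD (v i) with h1 | h1
      · exfalso
        refine hall (fun j => ?_)
        have : v j = (v j / v i) * v i := by field_simp
        rw [this]
        exact pd_mul (hij j (Finset.mem_univ _)) h1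
      · exact h1
    obtain ⟨u1, hu1, hu1v⟩ := pd_common Finset.univ (fun j => v j / v i)
      (fun j _ => hij j (Finset.mem_univ _))
    obtain ⟨u2, hu2, hu2v⟩ := hinv
    set u := u1 * u2 with hu
    have huD : u ∉ D := fun h => (hD.mem_or_mem h).elim hu1 hu2
    have huv : ∀ j, u • (v j / v i) ∈ (⊥ : Subalgebra R F) := by
      intro j
      rw [hu, mul_comm, mul_smul]
      exact smul_bot _ (hu1v j (Finset.mem_univ _))
    have hui : u • (v i)⁻¹ ∈ (⊥ : Subalgebra R F) := by
      rw [hu, mul_smul]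
      exact smul_bot _ hu2v
    have h1 : u • (x i / v i) ∈ (⊥ : Subalgebra R F) := by
      have hy : (Pi.single i (u • (v i)⁻¹) : Fin n → F) ∈ Lv (R := R) v := by
        refine ⟨single_mem_lat i hui, ?_⟩
        rw [single_dotProduct, smul_mul_assoc, inv_mul_cancel₀ hi0]
        exact smul_bot _ (one_mem _)
      have := hx _ hy
      rw [dotProduct_single, mul_smul_comm, ← div_eq_mul_inv] at this
      exact this
    obtain ⟨c, hc⟩ := Algebra.mem_bot.1 h1
    refine ⟨u, huD, c, fun j => ?_⟩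
    have hy : (Pi.single j (algebraMap R F u) - Pi.single i (u • (v j / v i)) : Fin n → F) ∈
        Lv (R := R) v := by
      refine ⟨sub_mem (single_mem_lat j (Subalgebra.algebraMap_mem _ u))
        (single_mem_lat i (huv j)), ?_⟩
      rw [sub_dotProduct, single_dotProduct, single_dotProduct, smul_mul_assoc,
        div_mul_cancel₀ _ hi0, ← Algebra.smul_def, sub_self]
      exact zero_mem _
    have h2 := hx _ hy
    rw [dotProduct_sub, dotProduct_single, dotProduct_single] at h2
    have h3 : (u • x - c • v) j = x j * (algebraMap R F) u - x i * u • (v j / v i) := by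
      simp only [Pi.sub_apply, Pi.smul_apply]
      rw [Algebra.smul_def c, hc, Algebra.smul_def, Algebra.smul_def, Algebra.smul_def]
      field_simp
    rw [h3]
    exact h2

theorem MM_le_dual (hH : Hart R F) (hV : Val R F) {n : ℕ} {v : Fin n → F}
    (hv : v ⬝ᵥ v ∈ (⊥ : Subalgebra R F)) : MM (R := R) v ≤ dual (MM v) := by
  intro x hx y hy
  refine hartogs_plus hH _ (fun D hD hDm => ?_)
  obtain ⟨u, hu, c, hl⟩ := F1 hV v D hDm hx.1
  refine ⟨u, hu, ?_⟩
  have hlv : u • x - c • v ∈ Lv (R := R) v := by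
    refine ⟨hl, ?_⟩
    rw [sub_dotProduct, smul_dotProduct, smul_dotProduct]
    exact sub_mem (smul_bot _ hx.2) (smul_bot _ hv)
  have h1 : u • (x ⬝ᵥ y) = (u • x - c • v) ⬝ᵥ y + c • (y ⬝ᵥ v) := by
    rw [sub_dotProduct, smul_dotProduct, smul_dotProduct, dotProduct_comm y v]
    ring
  rw [h1, dotProduct_comm _ y]
  exact add_mem (hy.1 _ hlv) (smul_bot _ hy.2)

theorem MM_inf (n : ℕ) (v : Fin n → F) : MM (R := R) v ⊓ lat R F n = Lv v := by
  apply le_antisymm
  · rintro x ⟨hx, hxL⟩
    exact ⟨hxL, hx.2⟩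
  · intro x hx
    exact ⟨Lv_le_MM v hx, hx.1⟩

theorem bdd_dual_Lv (n : ℕ) (v : Fin n → F) : Bdd (dual (Lv (R := R) v)) := by
  classical
  obtain ⟨d, hd⟩ := IsLocalization.exist_integer_multiples_of_finset (nonZeroDivisors R)
    (Finset.univ.image v)
  refine ⟨d, nonZeroDivisors.coe_ne_zero d, fun x hx j => ?_⟩
  have hy : (Pi.single j (algebraMap R F d) : Fin n → F) ∈ Lv (R := R) v := by
    refine ⟨single_mem_lat j (Subalgebra.algebraMap_mem _ _), ?_⟩
    rw [single_dotProduct, ← Algebra.smul_def]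
    obtain ⟨r, hr⟩ := hd (v j) (Finset.mem_image_of_mem _ (Finset.mem_univ _))
    rw [← hr]
    exact Subalgebra.algebraMap_mem _ _
  have := hx _ hy
  rw [dotProduct_single, mul_comm, ← Algebra.smul_def] at this
  exact this

theorem noeth_lat (n : ℕ) : IsNoetherian R (lat R F n) := by
  have h1 : lat R F n ≤ LinearMap.range ((Algebra.linearMap R F).compLeft (Fin n)) := by
    intro x hx
    choose r hr using fun i => Algebra.mem_bot.1 (hx i)
    exact ⟨r, funext hr⟩
  exact isNoetherian_of_le h1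

theorem noeth_of_bdd {n : ℕ} {M : Submodule R (Fin n → F)} (h : Bdd M) : IsNoetherian R M := by
  obtain ⟨d, hd0, hd⟩ := h
  have := noeth_lat (R := R) (F := F) n
  let f : M →ₗ[R] lat R F n := (LinearMap.lsmul R (Fin n → F) d).restrict hd
  refine isNoetherian_of_injective f ?_
  intro x y hxy
  have h1 : d • (x : Fin n → F) = d • (y : Fin n → F) := congrArg Subtype.val hxy
  apply Subtype.ext
  funext i
  have h2 := congrFun h1 i
  simp only [Pi.smul_apply, Algebra.smul_def] at h2
  have h3 : algebraMap R F d ≠ 0 := by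
    intro h0
    exact hd0 ((IsFractionRing.injective R F) (by rw [h0, map_zero]))
  exact mul_left_cancel₀ h3 h2

/-- modules killed pointwise outside every nonmaximal prime have finite length -/
theorem finLen (N : Type u) [AddCommGroup N] [Module R N] (hN : Module.Finite R N)
    (h : ∀ D : Ideal R, D.IsPrime → ¬ D.IsMaximal → ∀ x : N, ∃ s : R, s ∉ D ∧ s • x = 0) :
    IsFiniteLength R N := by
  revert h
  refine IsNoetherianRing.induction_on_isQuotientEquivQuotientPrime (A := R) hN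
    (motive := fun N _ _ _ => (∀ D : Ideal R, D.IsPrime → ¬ D.IsMaximal → ∀ x : N,
      ∃ s : R, s ∉ D ∧ s • x = 0) → IsFiniteLength R N) ?_ ?_ ?_
  · intro N _ _ _ _ _
    exact IsFiniteLength.of_subsingleton
  · intro N _ _ _ p e h
    have hp : p.1.IsMaximal := by
      by_contra hpm
      obtain ⟨s, hs, hs0⟩ := h p.1 p.2 hpm (e.symm 1)
      apply hs
      have h1 : s • (1 : R ⧸ p.1) = 0 := by
        have := congrArg e hs0
        rwa [map_smul, e.apply_symm_apply, map_zero] at this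
      rw [Algebra.smul_def, mul_one] at h1
      exact Ideal.Quotient.eq_zero_iff_mem.1 h1
    have hs : IsSimpleModule R (R ⧸ p.1) := isSimpleModule_iff_isCoatom.mpr hp.out
    have hs' : IsSimpleModule R N := IsSimpleModule.congr e
    exact isFiniteLength_iff_isNoetherian_isArtinian.2 ⟨inferInstance, inferInstance⟩
  · intro N₁ _ _ _ N₂ _ _ _ N₃ _ _ _ f g hf hg hfg h1 h3 h
    have h1' := h1 (fun D hD hDm x => by
      obtain ⟨s, hs, hs0⟩ := h D hD hDm (f x)
      refine ⟨s, hs, hf ?_⟩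
      rw [map_smul, hs0, map_zero])
    have h3' := h3 (fun D hD hDm x => by
      obtain ⟨y, rfl⟩ := hg x
      obtain ⟨s, hs, hs0⟩ := h D hD hDm y
      refine ⟨s, hs, ?_⟩
      rw [← map_smul, hs0, map_zero])
    rw [isFiniteLength_iff_isNoetherian_isArtinian] at h1' h3' ⊢
    obtain ⟨a1, b1⟩ := h1'
    obtain ⟨a3, b3⟩ := h3'
    exact ⟨isNoetherian_of_range_eq_ker f g hfg.linearMap_ker_eq.symm,
      isArtinian_of_range_eq_ker f g hfg.linearMap_ker_eq.symm⟩

theorem init (hH : Hart R F) (hV : Val R F) (n : ℕ) (v : Fin n → F)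
    (hv : v ⬝ᵥ v ∈ (⊥ : Subalgebra R F)) :
    ∃ M : Submodule R (Fin n → F), Bdd M ∧ dual M = M ∧ v ∈ M ∧ IsFiniteLength R (TM M) := by
  refine ⟨MM v, ?_, le_antisymm (dual_MM_le hv) (MM_le_dual hH hV hv), v_mem_MM hv, ?_⟩
  · obtain ⟨d, hd0, hd⟩ := bdd_dual_Lv (R := R) n v
    exact ⟨d, hd0, fun x hx => hd x hx.1⟩
  · have h0 : MM (R := R) v ⊓ lat R F n = Lv v := MM_inf n v
    have hb : Bdd (dual (MM (R := R) v ⊓ lat R F n)) := by
      rw [h0]; exact bdd_dual_Lv n v
    have hnoeth := noeth_of_bdd hb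
    have hfin : Module.Finite R (TM (MM (R := R) v)) := inferInstance
    refine finLen _ hfin (fun D hD hDm x => ?_)
    obtain ⟨x, rfl⟩ := Submodule.Quotient.mk_surjective _ x
    have hx : (x : Fin n → F) ∈ dual (Lv (R := R) v) := (le_of_eq (congrArg dual h0)) x.2
    obtain ⟨u, hu, c, hl⟩ := F1 hV v D hDm hx
    refine ⟨u, hu, ?_⟩
    rw [← Submodule.Quotient.mk_smul, Submodule.Quotient.mk_eq_zero]
    change (u • (x : Fin n → F)) ∈ MM (R := R) v ⊔ lat R F n
    have h1 : u • (x : Fin n → F) = c • v + (u • (x : Fin n → F) - c • v) := by abel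
    rw [h1]
    exact Submodule.add_mem_sup (Submodule.smul_mem _ c (v_mem_MM hv)) hl

end Main

theorem t : S_INIT.{u} := fun _ _ _ _ _ _ _ _ hH hV n v hv => init hH hV n v hv

end Pool.Agent.Y936.PY

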